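import Pool.Agent.Helper37.Asym.Main

/-!
# Problem MP_f04c59_an, Q1: the answer is negative, for every `n ≥ 1`

There is a block sequence `(x_k)` of finitely supported vectors such that for every `n ≥ 1` the
sequence `(x_k)` generates a `c_0` spreading model in `X^n_{0,1}`, while no subsequence of `(x_k)`
is equivalent to any subsequence of the basis of `X^n_{0,1}`.

The sequence is `x_k = ∑_{i=1}^{k} 2^{-i} e_{p(k,i)}`, with `p(k,i) = 2^(3^(k²+i-1))`.
-/

namespace Pool.Agent.Results.MP_f04c59_an.NoBasisSubsequence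

open Pool.Agent.Helper37.Asym

theorem result :
    ∃ x : ℕ+ → Vec, (∀ k l, k < l → Before (x k) (x l)) ∧
      ∀ n : ℕ, 1 ≤ n →
        GeneratesC0 (fun k => emb n (x k)) ∧
        ∀ k j : ℕ+ → ℕ+, StrictMono k → StrictMono j →
          ¬ SeqEquiv (fun i => emb n (x (k i))) (fun i => basis n (j i)) := by
  refine ⟨fun k => xv (k : ℕ), ?_, fun n hn => ⟨xs_generates n, fun k j hk hj =>
    not_equiv hn hk hj⟩⟩
  intro k l hkl p hp q hq
  have key : ∀ (u : ℕ) (p : ℕ+), p ∈ (xv u).support → ∃ i < u, P (u ^ 2 + i) = p := by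
    intro u p hp
    rw [Finsupp.mem_support_iff, xv_apply] at hp
    obtain ⟨i, hi, hne⟩ := Finset.exists_ne_zero_of_sum_ne_zero hp
    refine ⟨i, Finset.mem_range.1 hi, ?_⟩
    by_contra hcon
    rw [if_neg hcon, mul_zero] at hne
    exact hne rfl
  obtain ⟨i, hi, rfl⟩ := key _ _ hp
  obtain ⟨i', hi', rfl⟩ := key _ _ hq
  apply P_strictMono
  have h1 : (k : ℕ) + 1 ≤ (l : ℕ) := by exact_mod_cast hkl
  nlinarith

end Pool.Agent.Results.MP_f04c59_an.NoBasisSubsequence
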